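import Pool.Agent.ZES.StmtsB

/-!
ZES, row POI: Poincare series.
-/

namespace Pool.Agent.ZES.H47

open scoped BigOperators InnerProductSpace
open Pool.Agent.ZES

section

variable {V : Type} [NormedAddCommGroup V] [InnerProductSpace ℂ V]

/-- the factor of automorphy. -/
noncomputable def af (χ : V → ℂ) (n : ℕ) (ω x : V) : ℂ := χ ω ^ n * al (Real.pi * (n : ℝ)) ω x

/-- the terms of the series. -/
noncomputable def Tf (P : V → ℂ) (χ : V → ℂ) (n : ℕ) (ω x : V) : ℂ := P (x + ω) / af χ n ω x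

lemma chi_ne {L : AddSubgroup V} {χ : V → ℂ} (hL : LAT L χ) {ω : V} (hω : ω ∈ L) : χ ω ≠ 0 := by
  intro h0
  have h := hL.sq ω hω
  rw [h0] at h
  norm_num at h

lemma chi_norm {L : AddSubgroup V} {χ : V → ℂ} (hL : LAT L χ) {ω : V} (hω : ω ∈ L) :
    ‖χ ω‖ = 1 := by
  have h := congrArg norm (hL.sq ω hω)
  rw [norm_pow, norm_one] at h
  exact (pow_eq_one_iff_of_nonneg (norm_nonneg _) two_ne_zero).1 h

lemma al_ne (a : ℝ) (ω x : V) : al a ω x ≠ 0 := Complex.exp_ne_zero _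

lemma af_ne {L : AddSubgroup V} {χ : V → ℂ} (hL : LAT L χ) (n : ℕ) {ω : V} (hω : ω ∈ L) (x : V) :
    af χ n ω x ≠ 0 :=
  mul_ne_zero (pow_ne_zero _ (chi_ne hL hω)) (al_ne _ _ _)

lemma af_add (hAln : AlnStmt) {L : AddSubgroup V} {χ : V → ℂ} (hL : LAT L χ) (n : ℕ) {ω η : V}
    (hω : ω ∈ L) (hη : η ∈ L) (x : V) :
    af χ n (ω + η) x = af χ n ω (x + η) * af χ n η x := by
  have h5 := (hAln V (Real.pi * (n : ℝ)) (Real.pi * (n : ℝ)) ω η x x).2.2.2.2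
  unfold af
  rw [hL.mul ω hω η hη, mul_pow, mul_pow, ← Complex.exp_nat_mul]
  have e1 : χ ω ^ n * al (Real.pi * (n : ℝ)) ω (x + η) * (χ η ^ n * al (Real.pi * (n : ℝ)) η x)
      = χ ω ^ n * χ η ^ n * (al (Real.pi * (n : ℝ)) ω (x + η) * al (Real.pi * (n : ℝ)) η x) := by
    ring
  rw [e1, h5]
  have e2 : (n : ℂ) * (Real.pi * Complex.I * ((inner ℂ ω η : ℂ).im : ℂ))
      = ((Real.pi * (n : ℝ) : ℝ) : ℂ) * Complex.I * ((inner ℂ ω η : ℂ).im : ℂ) := by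
    push_cast
    ring
  rw [e2]
  ring

lemma chi_zero {L : AddSubgroup V} {χ : V → ℂ} (hL : LAT L χ) : χ 0 = 1 := by
  have h := hL.mul 0 L.zero_mem 0 L.zero_mem
  rw [add_zero, inner_zero_left] at h
  simp only [Complex.zero_im, Complex.ofReal_zero, mul_zero, Complex.exp_zero, mul_one] at h
  rw [h, ← pow_two]
  exact hL.sq 0 L.zero_mem

lemma Tf_zero (hAln : AlnStmt) {L : AddSubgroup V} {χ : V → ℂ} (hL : LAT L χ) (P : V → ℂ) (n : ℕ)
    (x : V) : Tf P χ n 0 x = P x := by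
  have h4 := (hAln V (Real.pi * (n : ℝ)) (Real.pi * (n : ℝ)) 0 0 x x).2.2.2.1
  unfold Tf af
  rw [h4, chi_zero hL, one_pow, one_mul, div_one, add_zero]

lemma Tf_shift (hAln : AlnStmt) {L : AddSubgroup V} {χ : V → ℂ} (hL : LAT L χ) (P : V → ℂ) (n : ℕ)
    {ω η : V} (hω : ω ∈ L) (hη : η ∈ L) (x : V) :
    Tf P χ n ω (x + η) = af χ n η x * Tf P χ n (ω + η) x := by
  unfold Tf
  rw [af_add hAln hL n hω hη x]
  have h1 := af_ne hL n hω (x + η)
  have h2 := af_ne hL n hη x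
  have h3 : x + η + ω = x + (ω + η) := by abel
  rw [h3]
  field_simp

lemma Tf_per (hAln : AlnStmt) {L : AddSubgroup V} {χ : V → ℂ} (hL : LAT L χ) {W : Submodule ℂ V}
    {P : V → ℂ} {n : ℕ}
    (hper : ∀ ω ∈ L, ω ∈ W → ∀ x, P (x + ω) = χ ω ^ n * al (Real.pi * (n : ℝ)) ω x * P x)
    {ω' ω : V} (h1 : ω' ∈ L) (h2 : ω' ∈ W) (h3 : ω ∈ L) (x : V) :
    Tf P χ n (ω' + ω) x = Tf P χ n ω x := by
  unfold Tf
  rw [af_add hAln hL n h1 h3 x]
  have e : x + (ω' + ω) = x + ω + ω' := by abel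
  rw [e, hper ω' h1 h2 (x + ω)]
  exact mul_div_mul_left _ _ (af_ne hL n h1 (x + ω))

lemma Tf_diff {χ : V → ℂ} {P : V → ℂ} (hP : Differentiable ℂ P) {L : AddSubgroup V}
    (hL : LAT L χ) (n : ℕ) {ω : V} (hω : ω ∈ L) :
    Differentiable ℂ (Tf P χ n ω) := by
  have h1 : Differentiable ℂ (fun x : V => P (x + ω)) :=
    hP.comp (differentiable_id.add (differentiable_const ω))
  have h2 : Differentiable ℂ (fun x : V => (inner ℂ ω x : ℂ)) := (innerSL ℂ ω).differentiable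
  have h3 : Differentiable ℂ (af χ n ω) := by
    unfold af al
    exact ((((h2.add (differentiable_const _)).const_mul _).cexp).const_mul _)
  have h4 : Tf P χ n ω = fun x => P (x + ω) * (af χ n ω x)⁻¹ := by
    funext x
    unfold Tf
    rw [div_eq_mul_inv]
  rw [h4]
  exact h1.mul (h3.inv (fun x => af_ne hL n hω x))

end

section

variable {V : Type} [NormedAddCommGroup V] [InnerProductSpace ℂ V] [FiniteDimensional ℂ V]

lemma mem_of_proj {W : Submodule ℂ V} {v : V} (h : Wᗮ.starProjection v = 0) : v ∈ W := by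
  have h1 := W.starProjection_add_starProjection_orthogonal v
  rw [h, add_zero] at h1
  rw [← h1]
  exact W.starProjection_apply_mem v

lemma Tf_eq (hAln : AlnStmt) {L : AddSubgroup V} {χ : V → ℂ} (hL : LAT L χ) {W : Submodule ℂ V}
    {P : V → ℂ} {n : ℕ}
    (hper : ∀ ω ∈ L, ω ∈ W → ∀ x, P (x + ω) = χ ω ^ n * al (Real.pi * (n : ℝ)) ω x * P x)
    {ω₁ ω₂ : V} (h1 : ω₁ ∈ L) (h2 : ω₂ ∈ L)
    (h : Wᗮ.starProjection ω₁ = Wᗮ.starProjection ω₂) (x : V) :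
    Tf P χ n ω₁ x = Tf P χ n ω₂ x := by
  have h3 : ω₁ - ω₂ ∈ W := mem_of_proj (by rw [map_sub, h, sub_self])
  have h4 := Tf_per hAln hL hper (L.sub_mem h1 h2) h3 h2 x
  rw [sub_add_cancel] at h4
  exact h4

lemma Tf_bd (hAln : AlnStmt) {L : AddSubgroup V} {χ : V → ℂ} (hL : LAT L χ) {W : Submodule ℂ V}
    {P : V → ℂ} {n : ℕ} {C : ℝ} (hC : 0 ≤ C)
    (hgr : ∀ x, ‖P x‖ ≤ C * Real.exp (Real.pi * (n : ℝ) / 2 * ‖x‖ ^ 2
      - ‖Wᗮ.starProjection x‖ ^ 2)) {ω : V} (hω : ω ∈ L) {x : V} {R : ℝ} (hx : ‖x‖ ≤ R) :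
    ‖Tf P χ n ω x‖ ≤ C * Real.exp (Real.pi * (n : ℝ) / 2 * R ^ 2 + R ^ 2)
      * Real.exp (-(1 / 2 * ‖Wᗮ.starProjection ω‖ ^ 2)) := by
  have h1 := (hAln V (Real.pi * (n : ℝ)) (Real.pi * (n : ℝ)) ω 0 x x).1
  have hR : 0 ≤ R := (norm_nonneg x).trans hx
  unfold Tf af
  rw [norm_div, norm_mul, norm_pow, chi_norm hL hω, one_pow, one_mul, h1]
  rw [div_le_iff₀ (Real.exp_pos _)]
  refine (hgr (x + ω)).trans ?_
  rw [mul_assoc, mul_assoc, ← Real.exp_add, ← Real.exp_add]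
  apply mul_le_mul_of_nonneg_left _ hC
  apply Real.exp_le_exp.2
  rw [map_add]
  set u := Wᗮ.starProjection x with hu
  set v := Wᗮ.starProjection ω with hv
  have h2 : ‖u‖ ≤ R := (Wᗮ.norm_starProjection_apply_le x).trans hx
  have h3 : ‖v‖ ≤ ‖u + v‖ + ‖u‖ := by
    have : v = (u + v) - u := by abel
    calc ‖v‖ = ‖(u + v) - u‖ := by rw [← this]
      _ ≤ ‖u + v‖ + ‖u‖ := norm_sub_le _ _
  have h4 : ‖v‖ ^ 2 ≤ 2 * ‖u + v‖ ^ 2 + 2 * ‖u‖ ^ 2 := by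
    have h5 : ‖v‖ ^ 2 ≤ (‖u + v‖ + ‖u‖) ^ 2 := pow_le_pow_left₀ (norm_nonneg v) h3 2
    nlinarith [sq_nonneg (‖u + v‖ - ‖u‖)]
  have h6 : ‖u‖ ^ 2 ≤ R ^ 2 := pow_le_pow_left₀ (norm_nonneg u) h2 2
  have h7 : ‖x‖ ^ 2 ≤ R ^ 2 := pow_le_pow_left₀ (norm_nonneg x) hx 2
  have h8 : Real.pi * (n : ℝ) / 2 * ‖x‖ ^ 2 ≤ Real.pi * (n : ℝ) / 2 * R ^ 2 :=
    mul_le_mul_of_nonneg_left h7 (by positivity)
  linarith

end

theorem poi (hAln : AlnStmt) (hGsm : GsmStmt) (hHol : HolStmt) : PoiStmt := by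
  intro V _ _ _ L χ hL W hW n P C hP hper hgr
  have hC : 0 ≤ C := by
    have h1 := (norm_nonneg _).trans (hgr 0)
    exact nonneg_of_mul_nonneg_left h1 (Real.exp_pos _)
  -- choice of the representatives
  have hch : ∀ ν : LC L W, ∃ ω ∈ L, Wᗮ.starProjection ω = (ν : V) := by
    intro ν
    obtain ⟨ω, hω, h⟩ := ν.2
    exact ⟨ω, hω, h⟩
  choose s hsL hsν using hch
  set F : V → ℂ := fun x => ∑' ν : LC L W, Tf P χ n (s ν) x with hF
  have hdiff : Differentiable ℂ F := by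
    apply hHol V (LC L W) (fun ν x => Tf P χ n (s ν) x)
    · intro ν
      exact Tf_diff hP hL n (hsL ν)
    · intro R
      refine ⟨fun ν => C * Real.exp (Real.pi * (n : ℝ) / 2 * R ^ 2 + R ^ 2)
        * Real.exp (-(1 / 2 * ‖(ν : V)‖ ^ 2)), ?_, ?_⟩
      · exact (hGsm V (LC L W) hW.disc (1 / 2) (by norm_num)).mul_left _
      · intro ν x hx
        have := Tf_bd hAln hL hC hgr (hsL ν) hx
        rw [hsν ν] at this
        exact this
  have hqp : ∀ η ∈ L, ∀ x : V, F (x + η) = χ η ^ n * al (Real.pi * (n : ℝ)) η x * F x := by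
    intro η hη x
    have hηC : Wᗮ.starProjection η ∈ LC L W := ⟨η, hη, rfl⟩
    have h1 : ∀ ν : LC L W, Tf P χ n (s ν) (x + η)
        = af χ n η x * Tf P χ n (s (ν + ⟨Wᗮ.starProjection η, hηC⟩)) x := by
      intro ν
      rw [Tf_shift hAln hL P n (hsL ν) hη x]
      congr 1
      apply Tf_eq hAln hL hper (L.add_mem (hsL ν) hη) (hsL _)
      rw [map_add, hsν, hsν]
      rfl
    simp only [hF]
    rw [tsum_congr h1, tsum_mul_left]
    have h2 : ∑' ν : LC L W, Tf P χ n (s (ν + ⟨Wᗮ.starProjection η, hηC⟩)) x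
        = ∑' ν : LC L W, Tf P χ n (s ν) x :=
      (Equiv.addRight (⟨Wᗮ.starProjection η, hηC⟩ : LC L W)).tsum_eq
        (fun ν : LC L W => Tf P χ n (s ν) x)
    rw [h2]
    rfl
  refine ⟨F, ⟨hdiff, hqp⟩, ?_, ?_⟩
  · intro x hx
    simp only [hF]
    have h1 : ∀ ν : LC L W, Tf P χ n (s ν) x = 0 := by
      intro ν
      unfold Tf
      rw [hx _ (hsL ν), zero_div]
    rw [tsum_congr h1, tsum_zero]
  · intro x hx
    simp only [hF]
    rw [tsum_eq_single (0 : LC L W)]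
    · have h1 : Tf P χ n (s 0) x = Tf P χ n 0 x := by
        apply Tf_eq hAln hL hper (hsL _) L.zero_mem
        rw [hsν, map_zero]
        rfl
      rw [h1, Tf_zero hAln hL P n x]
    · intro ν hν
      unfold Tf
      have h2 : s ν ∉ W := by
        intro h3
        apply hν
        have h4 : Wᗮ.starProjection (s ν) = 0 := W.starProjection_orthogonal_apply_eq_zero h3
        rw [hsν ν] at h4
        exact Subtype.ext h4
      rw [hx _ (hsL ν) h2, zero_div]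

end Pool.Agent.ZES.H47
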